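import Mathlib

/-!
# Abundance for compact Kähler manifolds: the data

The structures below describe compact Kähler manifolds, their plurigenera, the numerical dimension
of a nef canonical bundle, and products, étale maps, bimeromorphic maps, smooth families and
fibrations of such manifolds.  The fields of the structures are definitions and published theorems,
named in the comments.
-/

set_option autoImplicit false

namespace Pool.Agent.TH131.Kah

open Topology

/-- `p (l * m)` grows at least like `c * m ^ k` for some `l ≥ 1`, `c > 0`.  For the plurigenera `p`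
of a compact manifold this says that its Kodaira dimension is at least `k`. -/
def Grows (p : ℕ → ℕ) (k : ℕ) : Prop :=
  ∃ c : ℝ, 0 < c ∧ ∃ l : ℕ, 1 ≤ l ∧ ∀ m : ℕ, 1 ≤ m → c * (m : ℝ) ^ k ≤ (p (l * m) : ℝ)

/-- Compact Kähler manifolds (up to isomorphism). -/
structure Manifolds where
  /-- the compact Kähler manifolds -/
  M : Type
  /-- the complex dimension -/
  dim : M → ℕ
  /-- `P X m` is the plurigenus `dim H^0(X, m K_X)` -/
  P : M → ℕ → ℕ
  /-- `K_X` is nef -/
  IsNef : M → Prop
  /-- `m K_X` is globally generated -/
  IsFree : ℕ → M → Prop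
  /-- the numerical dimension of a nef canonical bundle: the largest `j` such that
  `c_1(K_X) ^ j ≠ 0` in `H^{2j}(X, ℝ)` -/
  nu : M → ℕ

/-- `K_X` is semiample: some `l K_X` with `l ≥ 1` is globally generated. -/
def Manifolds.IsSemiample (D : Manifolds) (X : D.M) : Prop :=
  ∃ l : ℕ, 1 ≤ l ∧ D.IsFree l X

/-- What is known in general.  `powers`: powers of a globally generated line bundle are globally
generated.  `grows`: for semiample `K_X` the Kodaira dimension is the numerical dimension.  `semiample`: if `K_X` is nef and its Kodaira dimension is at least its numerical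
dimension, then `K_X` is semiample (Kawamata, Nakayama, Fujino).  `low`: abundance in
dimension at most three (Campana, Höring, Peternell). -/
structure Known (D : Manifolds) : Prop where
  powers : ∀ (X : D.M) (l m : ℕ), 1 ≤ m → D.IsFree l X → D.IsFree (l * m) X
  grows : ∀ X : D.M, D.IsSemiample X → Grows (D.P X) (D.nu X)
  semiample : ∀ X : D.M, D.IsNef X → Grows (D.P X) (D.nu X) → D.IsSemiample X
  low : ∀ X : D.M, D.dim X ≤ 3 → D.IsNef X → D.IsSemiample X

/-- Products, with the Künneth formula for `H^0(X × Y, m K)`. -/
structure Products (D : Manifolds) where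
  /-- the product of two manifolds -/
  prod : D.M → D.M → D.M
  plurigenus : ∀ (X Y : D.M) (m : ℕ), D.P (prod X Y) m = D.P X m * D.P Y m
  nef : ∀ X Y : D.M, D.IsNef X → D.IsNef Y → D.IsNef (prod X Y)
  nu : ∀ X Y : D.M, D.IsNef X → D.IsNef Y → D.nu (prod X Y) = D.nu X + D.nu Y

/-- Finite étale maps `X' → X`.  `up`: pull-back of sections.  `down`: norms of sections. -/
structure EtaleMaps (D : Manifolds) where
  /-- there is a finite étale map from the first manifold onto the second one -/
  Covers : D.M → D.M → Prop
  nef : ∀ X' X : D.M, Covers X' X → (D.IsNef X' ↔ D.IsNef X)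
  up : ∀ X' X : D.M, Covers X' X → D.IsSemiample X → D.IsSemiample X'
  down : ∀ X' X : D.M, Covers X' X → D.IsSemiample X' → D.IsSemiample X

/-- Bimeromorphic maps between manifolds with nef canonical bundles (they are `K`-equivalent). -/
structure Bimeromorphic (D : Manifolds) where
  /-- the two manifolds are bimeromorphic -/
  Rel : D.M → D.M → Prop
  plurigenus : ∀ X Y : D.M, Rel X Y → D.P X = D.P Y
  nu : ∀ X Y : D.M, Rel X Y → D.IsNef X → D.IsNef Y → D.nu X = D.nu Y

/-- A smooth proper family of compact complex manifolds over a connected complex manifold `B`. -/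
structure Family (D : Manifolds) where
  /-- the base -/
  B : Type
  [top : TopologicalSpace B]
  [conn : PreconnectedSpace B]
  /-- the plurigenera of the fibres -/
  p : B → ℕ → ℕ
  /-- the points whose fibre is a Kähler manifold -/
  kaehler : Set B
  /-- the fibre, for a point of `kaehler` -/
  fib : B → D.M
  p_eq : ∀ t ∈ kaehler, p t = D.P (fib t)
  /-- closed analytic subsets of `B` -/
  IsAnalytic : Set B → Prop
  /-- the identity theorem -/
  eq_univ : ∀ Z U : Set B, IsAnalytic Z → IsOpen U → U.Nonempty → U ⊆ Z → Z = Set.univ
  /-- semicontinuity (Grauert) -/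
  grauert : ∀ m k : ℕ, IsAnalytic {t | k ≤ p t m}
  /-- if `m K` is globally generated on a Kähler fibre, then the `m`-th plurigenus is constant near
  this fibre (Levine) -/
  levine : ∀ t ∈ kaehler, ∀ m : ℕ, 1 ≤ m → D.IsFree m (fib t) → ∀ᶠ s in 𝓝 t, p s m = p t m
  /-- `c_1(K) ^ j` is not zero in the real cohomology of the fibre -/
  chern : ℕ → B → Prop
  /-- the classes `c_1(K)` form a flat section (Ehresmann) -/
  ehresmann : ∀ j : ℕ, IsLocallyConstant (chern j)
  nu_eq : ∀ t ∈ kaehler, D.IsNef (fib t) → D.nu (fib t) = sSup {j | chern j t}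

/-- Exchange property of the support of a Lorentzian polynomial in three variables (`M`-convexity,
Brändén and Huh). -/
def MConvex (S : Set (Fin 3 → ℕ)) : Prop :=
  ∀ p ∈ S, ∀ q ∈ S, ∀ i, q i < p i → ∃ j, p j < q j ∧
    (fun k => (p k + if k = j then 1 else 0) - if k = i then 1 else 0) ∈ S ∧
    (fun k => (q k + if k = i then 1 else 0) - if k = j then 1 else 0) ∈ S

/-- A fibration `f : X' → Y` with `X' → X` a modification, such that either `Y` is of general type
or `f` is the Iitaka fibration of `X`, and such that the general fibre of `f` is bimeromorphic to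
`F`, where `K_X` and `K_F` are nef. -/
structure Fibration (D : Manifolds) (X F : D.M) where
  /-- the dimension of `X` -/
  n : ℕ
  /-- the dimension of `Y` -/
  d : ℕ
  /-- the triples `(a, b, c)` with `a + b + c = n` and `α ^ a β ^ b ω ^ c > 0`, where `α` is
  the pull-back of `c_1(K_X)` to `X'`, `β` the pull-back of a Kähler class of `Y` and `ω` a
  Kähler class of `X'` -/
  S : Set (Fin 3 → ℕ)
  /-- nef classes are Lorentzian (Hodge-Riemann relations) -/
  exchange : MConvex S
  /-- `α ^ nu ≠ 0` -/
  top : ![D.nu X, 0, n - D.nu X] ∈ S
  nu_le : D.nu X ≤ n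
  d_le : d ≤ n
  /-- `β ^ d` is not zero -/
  base : ![0, d, n - d] ∈ S
  /-- `β ^ d` is a positive multiple of the class of a fibre of `f`; the restriction of `α` to
  the fibre is at most the positive part of its canonical class, the pull-back of `K_F` -/
  fibre : ∀ a c : ℕ, ![a, d, c] ∈ S → a ≤ D.nu F
  /-- additivity of the Kodaira dimension, `κ(X) ≥ κ(F) + dim Y` (Viehweg, Campana for `Y` of
  general type; for the Iitaka fibration `κ(X) = dim Y` and `κ(F) = 0`) -/
  additivity : ∀ k : ℕ, Grows (D.P F) k → Grows (D.P X) (k + d)

/-- The smallest class of compact Kähler manifolds with nef canonical bundle which contains those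
of dimension at most three and is closed under products, finite étale covers and quotients,
bimeromorphic maps, deformations, and fibrations over bases of general type (and Iitaka fibrations)
with general fibre in the class. -/
inductive Reach (D : Manifolds) (pr : Products D) (et : EtaleMaps D) (bi : Bimeromorphic D) :
    D.M → Prop
  | low (X : D.M) : D.dim X ≤ 3 → D.IsNef X → Reach D pr et bi X
  | prod (X Y : D.M) : Reach D pr et bi X → Reach D pr et bi Y → Reach D pr et bi (pr.prod X Y)
  | cover (X' X : D.M) : et.Covers X' X → Reach D pr et bi X → Reach D pr et bi X'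
  | quotient (X' X : D.M) : et.Covers X' X → Reach D pr et bi X' → Reach D pr et bi X
  | bimeromorphic (X Y : D.M) : bi.Rel X Y → D.IsNef Y → Reach D pr et bi X → Reach D pr et bi Y
  | deform (f : Family D) (s t : f.B) : s ∈ f.kaehler → t ∈ f.kaehler → D.IsNef (f.fib t) →
      Reach D pr et bi (f.fib s) → Reach D pr et bi (f.fib t)
  | fibration (X F : D.M) : Nonempty (Fibration D X F) → D.IsNef X → Reach D pr et bi F →
      Reach D pr et bi X

end Pool.Agent.TH131.Kah
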