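import Pool.Agent.TH131.Kah.Defs

/-!
# Abundance for compact Kähler manifolds: the proof
-/

set_option autoImplicit false

namespace Pool.Agent.TH131.Kah

open Topology

theorem Grows.mono {p : ℕ → ℕ} {k k' : ℕ} (h : k' ≤ k) (hp : Grows p k) : Grows p k' := by
  obtain ⟨c, hc, l, hl, hm⟩ := hp
  refine ⟨c, hc, l, hl, fun m hm1 => le_trans ?_ (hm m hm1)⟩
  have h1 : (1 : ℝ) ≤ m := by exact_mod_cast hm1
  exact mul_le_mul_of_nonneg_left (pow_le_pow_right₀ h1 h) hc.le

theorem Grows.mul {p q r : ℕ → ℕ} {j k : ℕ} (hp : Grows p j) (hq : Grows q k)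
    (hr : ∀ m, r m = p m * q m) : Grows r (j + k) := by
  obtain ⟨c, hc, l, hl, hm⟩ := hp
  obtain ⟨c', hc', l', hl', hm'⟩ := hq
  refine ⟨c * c', mul_pos hc hc', l * l', Nat.mul_pos hl hl', fun m hm1 => ?_⟩
  have h1 : c * (m : ℝ) ^ j ≤ (p (l * l' * m) : ℝ) := by
    have h2 := hm (l' * m) (Nat.mul_pos hl' hm1)
    rw [← mul_assoc] at h2
    refine le_trans ?_ h2
    refine mul_le_mul_of_nonneg_left ?_ hc.le
    refine pow_le_pow_left₀ (Nat.cast_nonneg m) ?_ j
    exact_mod_cast Nat.le_mul_of_pos_left m hl'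
  have h3 : c' * (m : ℝ) ^ k ≤ (q (l * l' * m) : ℝ) := by
    have h2 := hm' (l * m) (Nat.mul_pos hl hm1)
    rw [← mul_assoc, mul_comm l' l] at h2
    refine le_trans ?_ h2
    refine mul_le_mul_of_nonneg_left ?_ hc'.le
    refine pow_le_pow_left₀ (Nat.cast_nonneg m) ?_ k
    exact_mod_cast Nat.le_mul_of_pos_left m hl
  rw [hr, Nat.cast_mul]
  calc c * c' * (m : ℝ) ^ (j + k) = (c * (m : ℝ) ^ j) * (c' * (m : ℝ) ^ k) := by ring
    _ ≤ (p (l * l' * m) : ℝ) * (q (l * l' * m) : ℝ) := by
        refine mul_le_mul h1 h3 ?_ (Nat.cast_nonneg _)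
        exact mul_nonneg hc'.le (pow_nonneg (Nat.cast_nonneg m) k)

/-- Deformation invariance: growth of the plurigenera of a semiample fibre passes to all
fibres. -/
theorem Family.grows {D : Manifolds} (hD : Known D) (f : Family D) {s t : f.B}
    (hs : s ∈ f.kaehler) (ht : t ∈ f.kaehler) (hs1 : D.IsNef (f.fib s)) (ht1 : D.IsNef (f.fib t))
    (h : D.IsSemiample (f.fib s)) : Grows (D.P (f.fib t)) (D.nu (f.fib t)) := by
  let _ := f.top
  have := f.conn
  -- the numerical dimensions agree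
  have hnu : D.nu (f.fib t) = D.nu (f.fib s) := by
    rw [f.nu_eq t ht ht1, f.nu_eq s hs hs1]
    congr 1
    ext j
    have h1 : f.chern j t = f.chern j s :=
      (f.ehresmann j).apply_eq_of_preconnectedSpace t s
    change f.chern j t ↔ f.chern j s
    rw [h1]
  obtain ⟨l, hl, hfree⟩ := h
  obtain ⟨c, hc, l', hl', hm⟩ := hD.grows (f.fib s) ⟨l, hl, hfree⟩
  -- the plurigenera of multiples of `l` do not drop
  have key : ∀ m : ℕ, 1 ≤ m → f.p s (l * m) ≤ f.p t (l * m) := by
    intro m hm1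
    have h1 := f.levine s hs (l * m) (Nat.mul_pos hl hm1) (hD.powers _ l m hm1 hfree)
    obtain ⟨U, hU, hUo, hsU⟩ := mem_nhds_iff.1 h1
    have h2 : {r | f.p s (l * m) ≤ f.p r (l * m)} = Set.univ := by
      refine f.eq_univ _ U (f.grauert (l * m) (f.p s (l * m))) hUo ⟨s, hsU⟩ ?_
      intro r hr
      have h3 : f.p r (l * m) = f.p s (l * m) := hU hr
      exact h3.ge
    have h3 : t ∈ {r | f.p s (l * m) ≤ f.p r (l * m)} := by rw [h2]; trivial
    exact h3
  rw [hnu]
  refine ⟨c, hc, l * l', Nat.mul_pos hl hl', fun m hm1 => ?_⟩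
  have h1 := hm (l * m) (Nat.mul_pos hl hm1)
  have h2 := key (l' * m) (Nat.mul_pos hl' hm1)
  rw [f.p_eq s hs, f.p_eq t ht] at h2
  have e1 : l * l' * m = l * (l' * m) := by ring
  have e2 : l' * (l * m) = l * (l' * m) := by ring
  rw [e1]
  rw [e2] at h1
  refine le_trans (le_trans ?_ h1) (by exact_mod_cast h2)
  refine mul_le_mul_of_nonneg_left ?_ hc.le
  refine pow_le_pow_left₀ (Nat.cast_nonneg m) ?_ _
  exact_mod_cast Nat.le_mul_of_pos_left m hl

/-- Easy addition for the numerical dimension, from the exchange property. -/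
theorem Fibration.nu_le_add {D : Manifolds} {X F : D.M} (f : Fibration D X F) :
    D.nu X ≤ D.nu F + f.d := by
  by_contra hcon
  push Not at hcon
  have hk : f.d < D.nu X := by omega
  have key : ∀ b : ℕ, b ≤ f.d → ![D.nu X - b, b, f.n - D.nu X] ∈ f.S := by
    intro b
    induction b with
    | zero => intro _; simpa using f.top
    | succ b ih =>
      intro hb
      have hq := ih (by omega)
      have hp := f.base
      obtain ⟨j, hj, -, h2⟩ := f.exchange _ hp _ hq 1 (by simpa using hb)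
      have hle := f.nu_le
      fin_cases j
      · have e : (fun k : Fin 3 => (![D.nu X - b, b, f.n - D.nu X] k + if k = 1 then 1 else 0)
            - if k = (0 : Fin 3) then 1 else 0) = ![D.nu X - (b + 1), b + 1, f.n - D.nu X] := by
          funext k
          fin_cases k
          · simp; omega
          · simp
          · simp
        have h3 : (fun k : Fin 3 => (![D.nu X - b, b, f.n - D.nu X] k + if k = 1 then 1 else 0)
            - if k = (0 : Fin 3) then 1 else 0) ∈ f.S := h2
        rw [e] at h3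
        exact h3
      · exfalso
        simp at hj
        omega
      · exfalso
        simp at hj
        omega
  have h1 := key f.d le_rfl
  have h2 := f.fibre _ _ h1
  omega

/-- Abundance for all manifolds of the class. -/
theorem abundance (D : Manifolds) (hD : Known D) (pr : Products D) (et : EtaleMaps D)
    (bi : Bimeromorphic D) (X : D.M) (hX : Reach D pr et bi X) :
    D.IsNef X ∧ D.IsSemiample X := by
  induction hX with
  | low X h1 h2 => exact ⟨h2, hD.low X h1 h2⟩
  | prod X Y _ _ hX hY =>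
    have hn := pr.nef X Y hX.1 hY.1
    refine ⟨hn, hD.semiample _ hn ?_⟩
    rw [pr.nu X Y hX.1 hY.1]
    exact (hD.grows X hX.2).mul (hD.grows Y hY.2) (pr.plurigenus X Y)
  | cover X' X h _ hX => exact ⟨(et.nef X' X h).2 hX.1, et.up X' X h hX.2⟩
  | quotient X' X h _ hX => exact ⟨(et.nef X' X h).1 hX.1, et.down X' X h hX.2⟩
  | bimeromorphic X Y h hY _ hX =>
    refine ⟨hY, hD.semiample Y hY ?_⟩
    rw [← bi.plurigenus X Y h, ← bi.nu X Y h hX.1 hY]
    exact hD.grows X hX.2
  | deform f s t hs ht hn _ hX =>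
    exact ⟨hn, hD.semiample _ hn (f.grows hD hs ht hX.1 hn hX.2)⟩
  | fibration X F h hn _ hF =>
    obtain ⟨f⟩ := h
    refine ⟨hn, hD.semiample X hn ?_⟩
    exact (f.additivity _ (hD.grows F hF.2)).mono f.nu_le_add

end Pool.Agent.TH131.Kah
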